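import Pool.Agent.D0H81.YN.Stm

/-!
# YN package HM: length from the number of separated points
-/

set_option autoImplicit false
open MeasureTheory Filter Topology Complex Metric
open scoped ContDiff ENNReal

namespace Pool.Agent.D0H96.YN

open Pool.Agent.D0H81.YN

/-- a finite separated set whose balls cover `Z` -/
theorem net (Z : Set ℂ) (B δ : ℝ) (hδ : 0 < δ)
    (h : ∀ F : Finset ℂ, (F : Set ℂ) ⊆ Z →
      (∀ x ∈ F, ∀ y ∈ F, x ≠ y → 4 * δ < dist x y) → F.card * δ ≤ B) :
    ∃ F : Finset ℂ, F.card * δ ≤ B ∧ Z ⊆ ⋃ x : F, closedBall (x : ℂ) (4 * δ) := by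
  classical
  let Q : ℕ → Prop := fun n => ∃ F : Finset ℂ, F.card = n ∧ (F : Set ℂ) ⊆ Z ∧
    ∀ x ∈ F, ∀ y ∈ F, x ≠ y → 4 * δ < dist x y
  obtain ⟨N, hN⟩ := exists_nat_gt (B / δ)
  have hb : ∀ n, Q n → n ≤ N := by
    rintro n ⟨F, hF, hZ, hs⟩
    have h1 := h F hZ hs
    rw [hF] at h1
    have h2 : (n : ℝ) ≤ B / δ := by rwa [le_div_iff₀ hδ]
    have h3 : (n : ℝ) < N := lt_of_le_of_lt h2 hN
    exact_mod_cast h3.le
  have h0 : Q 0 := ⟨∅, by simp, by simp, by simp⟩
  have hQ := Nat.findGreatest_spec (P := Q) (Nat.zero_le N) h0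
  set n := Nat.findGreatest Q N with hn
  obtain ⟨F, hF, hZ, hs⟩ := hQ
  refine ⟨F, h F hZ hs, ?_⟩
  intro z hz
  by_contra hcon
  simp only [Set.mem_iUnion, mem_closedBall, not_exists, not_le] at hcon
  have hzF : z ∉ F := by
    intro hzF
    have := hcon ⟨z, hzF⟩
    simp only [dist_self] at this
    linarith
  have hQ' : Q (n + 1) := by
    refine ⟨insert z F, by rw [Finset.card_insert_of_notMem hzF, hF], ?_, ?_⟩
    · intro x hx
      rw [Finset.coe_insert] at hx
      rcases hx with rfl | hx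
      · exact hz
      · exact hZ hx
    · intro x hx y hy hxy
      rw [Finset.mem_insert] at hx hy
      rcases hx with rfl | hx <;> rcases hy with rfl | hy
      · exact absurd rfl hxy
      · exact hcon ⟨y, hy⟩
      · rw [dist_comm]; exact hcon ⟨x, hx⟩
      · exact hs x hx y hy hxy
  have h1 := Nat.le_findGreatest (hb _ hQ') hQ'
  rw [← hn] at h1
  omega

theorem t_HM : S_HM := by
  intro Z B δ₀ _ hB hδ₀ h
  let δ : ℕ → ℝ := fun n => δ₀ / (n + 1)
  have hδ : ∀ n, 0 < δ n := fun n => by positivity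
  have hδ1 : ∀ n, δ n ≤ δ₀ := fun n => div_le_self hδ₀.le (by linarith [Nat.cast_nonneg (α := ℝ) n])
  choose F hF1 hF2 using fun n => net Z B (δ n) (hδ n) (fun F h1 h2 => h (δ n) F (hδ n) (hδ1 n) h1 h2)
  have hlim : Tendsto (fun n => ENNReal.ofReal (8 * δ n)) atTop (𝓝 0) := by
    have h1 : Tendsto (fun n : ℕ => 8 * δ n) atTop (𝓝 0) := by
      have h2 : Tendsto (fun n : ℕ => δ₀ * (1 / ((n : ℝ) + 1))) atTop (𝓝 (δ₀ * 0)) :=
        tendsto_one_div_add_atTop_nhds_zero_nat.const_mul δ₀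
      have h3 := h2.const_mul 8
      simp only [mul_zero] at h3
      refine h3.congr fun n => ?_
      simp only [δ]
      ring
    have := (ENNReal.continuous_ofReal.tendsto 0).comp h1
    rw [ENNReal.ofReal_zero] at this
    exact this
  have hd : ∀ n (i : F n), ediam (closedBall (i : ℂ) (4 * δ n)) ≤ ENNReal.ofReal (8 * δ n) := by
    intro n i
    refine ediam_le fun x hx y hy => ?_
    rw [edist_dist]
    refine ENNReal.ofReal_le_ofReal ?_
    rw [mem_closedBall] at hx hy
    have := dist_triangle_right x y (i : ℂ)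
    linarith
  refine (Measure.hausdorffMeasure_le_liminf_sum 1 Z (fun n => ENNReal.ofReal (8 * δ n)) hlim
    (fun n (i : F n) => closedBall (i : ℂ) (4 * δ n)) (Eventually.of_forall hd)
    (Eventually.of_forall hF2)).trans ?_
  refine liminf_le_of_le ?_ ?_
  · exact ⟨0, Eventually.of_forall fun _ => bot_le⟩
  · intro b hb
    obtain ⟨n, hn⟩ := hb.exists
    refine hn.trans ?_
    calc ∑ i : F n, ediam (closedBall (i : ℂ) (4 * δ n)) ^ (1 : ℝ)
        ≤ ∑ _i : F n, ENNReal.ofReal (8 * δ n) := by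
          refine Finset.sum_le_sum fun i _ => ?_
          rw [ENNReal.rpow_one]
          exact hd n i
      _ = ENNReal.ofReal ((F n).card * (8 * δ n)) := by
          rw [Finset.sum_const, Finset.card_univ, Fintype.card_coe, nsmul_eq_mul,
            ENNReal.ofReal_mul (Nat.cast_nonneg _), ENNReal.ofReal_natCast]
      _ ≤ ENNReal.ofReal (8 * B) := by
          refine ENNReal.ofReal_le_ofReal ?_
          have := hF1 n
          nlinarith

end Pool.Agent.D0H96.YN
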