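import Pool.Agent.D0H81.YN.Stm
import Pool.Agent.Q73.NL.T4
import Pool.Agent.Q73.NL.T5

/-!
# YN package SG: signs on small circles around zeros
-/

set_option autoImplicit false
open MeasureTheory Filter Topology Complex Metric
open scoped ContDiff ENNReal

namespace Pool.Agent.D0H96.YN

open Pool.Agent.D0H81.YN
open Pool.Agent.Q73.NL (dx dy lap)
open Pool.Agent.Q73.AD (sn)

/-- one circle -/
theorem one_circle {q u : ℂ → ℝ} {y : ℂ} {r : ℝ} (hr : 0 < r) (hr1 : r ≤ 1)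
    (hsm : ∀ z ∈ closedBall y r, ContDiffAt ℝ ∞ u z)
    (hq0 : ∀ z ∈ closedBall y r, 0 ≤ q z) (hq1 : ∀ z ∈ closedBall y r, q z ≤ 1)
    (heq : ∀ z ∈ closedBall y r, lap u z + q z * u z = 0) (hy : u y = 0)
    (hne : ∃ z ∈ ball y r, u z ≠ 0) :
    ∃ z ∈ sphere y r, u z < 0 := by
  by_contra hcon
  push Not at hcon
  have hpi : (3 : ℝ) < Real.pi := Real.pi_gt_three
  have h1 := Pool.Agent.Q73.NL.t4 (closedBall y r) q u y 1 (isCompact_closedBall y r) one_pos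
    (fun z hz => by
      rw [mem_closedBall, Complex.dist_eq] at hz
      have h2 := (Complex.abs_re_le_norm (z - y)).trans hz
      have h3 := (Complex.abs_im_le_norm (z - y)).trans hz
      constructor <;> linarith)
    (fun z hz => (hsm z hz).continuousAt.continuousWithinAt)
    (fun z hz => (hsm z (interior_subset hz)).of_le (by norm_cast))
    (fun z hz => by linarith [hq1 z (interior_subset hz)])
    (fun z hz => (heq z (interior_subset hz)).le)
    (fun z hz => hcon z (by rwa [frontier_closedBall y hr.ne'] at hz))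
  have hsub : ∀ z ∈ ball y r, z ∈ closedBall y r := fun z hz => ball_subset_closedBall hz
  have h2 := Pool.Agent.Q73.NL.t5 Pool.Agent.Q73.NL.t4 y r 1 q u hr
    (fun z hz => ⟨hq0 z (hsub z hz), hq1 z (hsub z hz)⟩)
    (fun z hz => (hsm z (hsub z hz)).of_le (by norm_cast))
    (fun z hz => heq z (hsub z hz)) (fun z hz => h1 z (hsub z hz))
    ⟨y, mem_ball_self hr, hy⟩
  obtain ⟨z, hz, hz0⟩ := hne
  exact hz0 (h2 z hz)

/-- a uniform lower bound on a compact set of circles -/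
theorem unif (T : Set (ℂ × ℝ)) (hT : IsCompact T) (u : ℂ → ℝ)
    (hu : ∀ x ∈ T, ∀ e : ℂ, ‖e‖ = 1 → ContinuousAt u (x.1 + x.2 * e))
    (h : ∀ x ∈ T, ∃ e : ℂ, ‖e‖ = 1 ∧ u (x.1 + x.2 * e) < 0) :
    ∃ ε : ℝ, 0 < ε ∧ ∀ x ∈ T, ∃ e : ℂ, ‖e‖ = 1 ∧ u (x.1 + x.2 * e) ≤ -ε := by
  refine hT.induction_on (p := fun s => ∃ ε : ℝ, 0 < ε ∧ ∀ x ∈ s, ∃ e : ℂ, ‖e‖ = 1 ∧
    u (x.1 + x.2 * e) ≤ -ε) ⟨1, one_pos, by simp⟩ ?_ ?_ ?_
  · rintro s t hst ⟨ε, hε, h1⟩
    exact ⟨ε, hε, fun x hx => h1 x (hst hx)⟩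
  · rintro s t ⟨ε, hε, h1⟩ ⟨ε', hε', h2⟩
    refine ⟨min ε ε', lt_min hε hε', ?_⟩
    rintro x (hx | hx)
    · obtain ⟨e, he, h3⟩ := h1 x hx
      exact ⟨e, he, h3.trans (neg_le_neg (min_le_left _ _))⟩
    · obtain ⟨e, he, h3⟩ := h2 x hx
      exact ⟨e, he, h3.trans (neg_le_neg (min_le_right _ _))⟩
  · intro x hx
    obtain ⟨e, he, hue⟩ := h x hx
    have hc : ContinuousAt (fun p : ℂ × ℝ => u (p.1 + p.2 * e)) x := by
      refine ContinuousAt.comp (f := fun p : ℂ × ℝ => p.1 + (p.2 : ℂ) * e) (hu x hx e he) ?_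
      fun_prop
    have hev : ∀ᶠ p : ℂ × ℝ in 𝓝 x, u (p.1 + p.2 * e) < u (x.1 + x.2 * e) / 2 :=
      hc.eventually (gt_mem_nhds (by linarith))
    refine ⟨_, mem_nhdsWithin_of_mem_nhds hev, -(u (x.1 + x.2 * e) / 2), by linarith, ?_⟩
    intro p hp
    refine ⟨e, he, ?_⟩
    rw [neg_neg]
    exact le_of_lt hp

theorem half {q u : ℂ → ℝ} {δ : ℝ} (hδ : 0 < δ) (hδ1 : δ ≤ 1 / 2)
    (hsm : ∀ z ∈ closedBall (0 : ℂ) 16, ContDiffAt ℝ ∞ u z)
    (hq0 : ∀ z ∈ closedBall (0 : ℂ) 16, 0 ≤ q z) (hq1 : ∀ z ∈ closedBall (0 : ℂ) 16, q z ≤ 1)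
    (heq : ∀ z ∈ closedBall (0 : ℂ) 16, lap u z + q z * u z = 0)
    (hne : ∀ (z : ℂ) (r : ℝ), 0 < r → closedBall z r ⊆ closedBall 0 16 →
      ∃ x ∈ ball z r, u x ≠ 0) :
    ∃ ε : ℝ, 0 < ε ∧ ∀ y ∈ closedBall (0 : ℂ) 1, u y = 0 → ∀ r ∈ Set.Icc δ (2 * δ),
      ∃ z ∈ sphere y r, u z ≤ -ε := by
  have hsub : ∀ y ∈ closedBall (0 : ℂ) 1, ∀ r : ℝ, r ≤ 1 →
      closedBall y r ⊆ closedBall (0 : ℂ) 16 := by
    intro y hy r hr z hz
    rw [mem_closedBall] at hz hy ⊢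
    have := dist_triangle z y 0
    linarith
  have hcon : ContinuousOn u (closedBall (0 : ℂ) 16) :=
    fun z hz => (hsm z hz).continuousAt.continuousWithinAt
  have hYc : IsCompact (closedBall (0 : ℂ) 1 ∩ u ⁻¹' {0}) := by
    have h1 : IsClosed (closedBall (0 : ℂ) 1 ∩ u ⁻¹' {0}) :=
      (hcon.mono (closedBall_subset_closedBall (by norm_num))).preimage_isClosed_of_isClosed
        isClosed_closedBall isClosed_singleton
    exact (isCompact_closedBall (0 : ℂ) 1).of_isClosed_subset h1 Set.inter_subset_left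
  obtain ⟨ε, hε, h⟩ := unif ((closedBall (0 : ℂ) 1 ∩ u ⁻¹' {0}) ×ˢ Set.Icc δ (2 * δ))
    (hYc.prod isCompact_Icc) u (by
      rintro ⟨y, r⟩ ⟨⟨hy, _⟩, hr⟩ e he
      refine (hsm _ (hsub y hy r (by linarith [hr.2]) ?_)).continuousAt
      rw [mem_closedBall, Complex.dist_eq]
      simp only [add_sub_cancel_left, norm_mul, he, mul_one, Complex.norm_real, Real.norm_eq_abs]
      rw [abs_of_nonneg (by linarith [hr.1])]) (by
      rintro ⟨y, r⟩ ⟨⟨hy, hy0⟩, hr⟩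
      have hr0 : 0 < r := lt_of_lt_of_le hδ hr.1
      have hr1 : r ≤ 1 := by linarith [hr.2]
      have hs := hsub y hy r hr1
      obtain ⟨z, hz, hz0⟩ := one_circle hr0 hr1 (fun z hz => hsm z (hs hz))
        (fun z hz => hq0 z (hs hz)) (fun z hz => hq1 z (hs hz)) (fun z hz => heq z (hs hz)) hy0
        (hne y r hr0 hs)
      rw [mem_sphere, Complex.dist_eq] at hz
      have hrC : (r : ℂ) ≠ 0 := by exact_mod_cast hr0.ne'
      refine ⟨(z - y) / r, ?_, ?_⟩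
      · rw [norm_div, hz, Complex.norm_real, Real.norm_eq_abs, abs_of_pos hr0, div_self hr0.ne']
      · simp only
        rw [mul_div_cancel₀ _ hrC, add_sub_cancel]
        exact hz0)
  refine ⟨ε, hε, fun y hy hy0 r hr => ?_⟩
  obtain ⟨e, he, h1⟩ := h (y, r) ⟨⟨hy, hy0⟩, hr⟩
  refine ⟨y + r * e, ?_, h1⟩
  rw [mem_sphere, Complex.dist_eq]
  simp only [add_sub_cancel_left, norm_mul, he, mul_one, Complex.norm_real, Real.norm_eq_abs]
  exact abs_of_nonneg (by linarith [hr.1])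

theorem lap_neg' (u : ℂ → ℝ) (z : ℂ) : lap (fun w => -u w) z = -lap u z := by
  have h1 : dx (fun w => -u w) = fun w => -dx u w := by
    funext w
    simp [dx, fderiv_fun_neg]
  have h2 : dy (fun w => -u w) = fun w => -dy u w := by
    funext w
    simp [dy, fderiv_fun_neg]
  have h3 : dx (fun w => -dx u w) z = -dx (dx u) z := by
    show fderiv ℝ (fun w => -dx u w) z 1 = -(fderiv ℝ (dx u) z 1)
    rw [fderiv_fun_neg]
    rfl
  have h4 : dy (fun w => -dy u w) z = -dy (dy u) z := by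
    show fderiv ℝ (fun w => -dy u w) z I = -(fderiv ℝ (dy u) z I)
    rw [fderiv_fun_neg]
    rfl
  unfold lap
  rw [h1, h2, h3, h4]
  ring

theorem t_SG : S_SG := by
  intro q u δ hS hδ hδ1 hsn
  have hne : ∀ (z : ℂ) (r : ℝ), 0 < r → closedBall z r ⊆ closedBall 0 16 →
      ∃ x ∈ ball z r, u x ≠ 0 := by
    intro z r hr hz
    by_contra hcon
    push Not at hcon
    have h1 := hsn z (r / 2) (by linarith)
      ((closedBall_subset_closedBall (by linarith)).trans hz)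
    have h2 : sn u (closedBall z (r / 2)) = 0 := by
      unfold Pool.Agent.Q73.AD.sn
      have h3 : (fun x => |u x|) '' closedBall z (r / 2) = {0} := by
        ext t
        simp only [Set.mem_image, Set.mem_singleton_iff]
        constructor
        · rintro ⟨x, hx, rfl⟩
          rw [hcon x (closedBall_subset_ball (by linarith) hx), abs_zero]
        · rintro rfl
          exact ⟨z, mem_closedBall_self (by linarith), by
            rw [hcon z (mem_ball_self hr), abs_zero]⟩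
      rw [h3, csSup_singleton]
    linarith
  obtain ⟨ε, hε, h1⟩ := half hδ hδ1 hS.sm hS.q0 hS.q1 hS.eq hne
  obtain ⟨ε', hε', h2⟩ := half (u := fun w => -u w) hδ hδ1 (fun z hz => (hS.sm z hz).neg) hS.q0
    hS.q1 (fun z hz => by
      rw [lap_neg']
      have := hS.eq z hz
      linarith) (fun z r hr hz => by
      obtain ⟨x, hx, hx0⟩ := hne z r hr hz
      exact ⟨x, hx, neg_ne_zero.2 hx0⟩)
  refine ⟨min ε ε', lt_min hε hε', fun y hy hy0 r hr => ⟨?_, ?_⟩⟩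
  · obtain ⟨z, hz, h3⟩ := h2 y hy (by rw [hy0, neg_zero]) r hr
    exact ⟨z, hz, by linarith [min_le_right ε ε']⟩
  · obtain ⟨z, hz, h3⟩ := h1 y hy hy0 r hr
    exact ⟨z, hz, by linarith [min_le_left ε ε']⟩

end Pool.Agent.D0H96.YN
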